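import Mathlib

set_option autoImplicit false
open MvPolynomial Module Complex

namespace Pool.Agent.H.MP_23142e_ag

abbrev R := MvPolynomial (Fin 3) ℂ

theorem deg3 {f : R} {k : ℕ} (h : f.IsHomogeneous k) {s : Fin 3 →₀ ℕ} (hs : s ∈ f.support) :
    s 0 + s 1 + s 2 = k := by
  have h2 := h (mem_support_iff.mp hs)
  rw [← h2, ← Fin.sum_univ_three, ← Finsupp.degree_eq_sum, Finsupp.degree_eq_weight_one]
  rfl

theorem ev_smul {f : R} {k : ℕ} (h : f.IsHomogeneous k) (c : ℂ) (v : Fin 3 → ℂ) :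
    eval (c • v) f = c ^ k * eval v f := by
  simp only [eval_eq', Finset.mul_sum, Fin.prod_univ_three, Pi.smul_apply, smul_eq_mul, mul_pow]
  refine Finset.sum_congr rfl fun s hs => ?_
  rw [← deg3 h hs]; ring

theorem fr (d : ℕ) : finrank ℂ (homogeneousSubmodule (Fin 3) ℂ d) = (d + 2).choose 2 := by
  classical
  have e : homogeneousSubmodule (Fin 3) ℂ d = Submodule.span ℂ (Set.range fun s :
      (Finset.univ : Finset (Fin 3)).finsuppAntidiag d => (monomial s.1 (1 : ℂ) : R)) := by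
    refine le_antisymm (fun F hF => ?_) (Submodule.span_le.mpr ?_)
    · rw [F.as_sum]
      refine Submodule.sum_mem _ fun s hs => ?_
      rw [← mul_one (coeff s F), ← smul_eq_mul, ← smul_monomial]
      refine Submodule.smul_mem _ _ (Submodule.subset_span ⟨⟨s, ?_⟩, rfl⟩)
      simpa [Fin.sum_univ_three] using deg3 hF hs
    · rintro _ ⟨⟨s, hs⟩, rfl⟩
      refine isHomogeneous_monomial _ ?_
      simpa [Finsupp.degree_eq_sum] using hs
  have li : LinearIndependent ℂ fun s : (Finset.univ : Finset (Fin 3)).finsuppAntidiag d =>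
      (monomial s.1 (1 : ℂ) : R) :=
    (basisMonomials (Fin 3) ℂ).linearIndependent.comp _ Subtype.val_injective
  rw [e, finrank_span_eq_card li, Fintype.card_coe, Finset.card_finsuppAntidiag_nat_eq_choose, ← Nat.choose_symm_add]
  simp [show 3 + d - 1 = d + 2 by omega]

instance (d : ℕ) : Module.Finite ℂ (homogeneousSubmodule (Fin 3) ℂ d) :=
  Module.Finite.iff_fg.mpr (homogeneousSubmodule_fg (Fin 3) ℂ d)

theorem dimR : ringKrullDim R = 3 := by
  rw [MvPolynomial.ringKrullDim_of_isNoetherianRing, ringKrullDim_eq_zero_of_field]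
  simp

theorem princ (P : Ideal R) (hP : P.IsPrime) (h : ringKrullDim (R ⧸ P) = 2) :
    ∃ p, p ≠ 0 ∧ P = Ideal.span {p} := by
  have h0 : P ≠ ⊥ := by
    rintro rfl
    rw [ringKrullDim_eq_of_ringEquiv (RingEquiv.quotientBot R), dimR] at h
    exact absurd h (by decide)
  obtain ⟨p, hp, hp'⟩ := hP.exists_mem_prime_of_ne_bot h0
  have le : Ideal.span {p} ≤ P := (Ideal.span_singleton_le_iff_mem _).mpr hp
  refine ⟨p, hp'.ne_zero, le_antisymm (fun r hr => by_contra fun hn => ?_) le⟩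
  have := (Ideal.span_singleton_prime hp'.ne_zero).mpr hp'
  have a := ringKrullDim_succ_le_of_surjective (Ideal.Quotient.factor le)
    (Ideal.Quotient.factor_surjective le) (r := Ideal.Quotient.mk _ r)
    (mem_nonZeroDivisors_of_ne_zero (mt Ideal.Quotient.eq_zero_iff_mem.mp hn))
    (Ideal.Quotient.eq_zero_iff_mem.mpr hr)
  have b := ringKrullDim_quotient_succ_le_of_nonZeroDivisor (mem_nonZeroDivisors_of_ne_zero hp'.ne_zero)
  have := (add_le_add_left a 1).trans b
  rw [h, dimR] at this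
  exact absurd this (by decide)

theorem gen (I : Ideal R) (h1 : ∀ f ∈ I, ∀ k : ℕ, homogeneousComponent k f ∈ I) (h2 : I.IsRadical)
    (h3 : ∀ P ∈ I.minimalPrimes, ringKrullDim (R ⧸ P) = 2) :
    ∃ f k, f ≠ 0 ∧ IsHomogeneous f k ∧ I = Ideal.span {f} := by
  have : ∀ T : Set (Ideal R), T.Finite → (∀ P ∈ T, ∃ p, p ≠ 0 ∧ P = Ideal.span {p}) →
      ∃ p, p ≠ 0 ∧ sInf T = Ideal.span {p} := fun T hT => by
    induction T, hT using Set.Finite.induction_on with
    | empty => exact fun _ => ⟨1, one_ne_zero, by simp⟩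
    | insert _ _ ih =>
      intro h
      obtain ⟨p, p1, p2⟩ := h _ (Set.mem_insert _ _)
      obtain ⟨q, q1, q2⟩ := ih fun P hP => h P (Set.mem_insert_of_mem _ hP)
      classical
      letI := UniqueFactorizationMonoid.toGCDMonoid R
      refine ⟨lcm p q, by simp [lcm_eq_zero_iff, p1, q1], ?_⟩
      ext r
      simp [p2, q2, Ideal.mem_span_singleton, lcm_dvd_iff]
  obtain ⟨f, f0, hf⟩ := this _ I.finite_minimalPrimes_of_isNoetherianRing
    fun P hP => princ P hP.1.1 (h3 P hP)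
  rw [Ideal.sInf_minimalPrimes, h2.radical] at hf
  refine ⟨f, f.totalDegree, f0, ?_, hf⟩
  obtain ⟨g, hg⟩ := Ideal.mem_span_singleton.mp (hf ▸ h1 f (hf ▸ Ideal.mem_span_singleton_self f) f.totalDegree)
  have c0 : homogeneousComponent f.totalDegree f ≠ 0 := by
    obtain ⟨s, hs, e⟩ := Finset.exists_mem_eq_sup f.support (support_nonempty.mpr f0)
      fun s => s.sum fun _ e => e
    refine support_nonempty.mp ⟨s, ?_⟩
    rw [support_homogeneousComponent, Finset.mem_filter]
    exact ⟨hs, e.symm⟩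
  have g0 : g ≠ 0 := by rintro rfl; exact c0 (by simpa using hg)
  have d := (homogeneousComponent_isHomogeneous f.totalDegree f).totalDegree c0
  rw [hg, totalDegree_mul_of_isDomain f0 g0] at d
  have e := totalDegree_eq_zero_iff_eq_C.mp (show g.totalDegree = 0 by omega)
  have c1 : coeff 0 g ≠ 0 := fun h => g0 (by rw [e, h, map_zero])
  have := (homogeneousComponent_isHomogeneous f.totalDegree f).mul (isHomogeneous_C _ (coeff 0 g)⁻¹)
  rwa [hg, e, mul_assoc, ← map_mul, coeff_zero_C, mul_inv_cancel₀ c1, map_one, mul_one, add_zero] at this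

attribute [local instance] MvPolynomial.gradedAlgebra in
theorem upper {f : R} {k : ℕ} (h : f.IsHomogeneous k) (s : ℕ) :
    finrank ℂ ↥((Ideal.span {f}).restrictScalars ℂ ⊓ homogeneousSubmodule (Fin 3) ℂ (k + s)) ≤
      (s + 2).choose 2 := by
  rw [← fr]
  refine le_trans (Submodule.finrank_mono (t := (homogeneousSubmodule (Fin 3) ℂ s).map
    (LinearMap.mulLeft ℂ f)) ?_) (Submodule.finrank_map_le _ _)
  rintro q ⟨h1, h2⟩
  obtain ⟨g, rfl⟩ := Ideal.mem_span_singleton.mp h1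
  refine ⟨DirectSum.decompose (homogeneousSubmodule (Fin 3) ℂ) g s, Subtype.coe_prop _, ?_⟩
  rw [LinearMap.mulLeft_apply, ← DirectSum.coe_decompose_mul_add_of_left_mem _ h,
    DirectSum.decompose_of_mem_same _ h2]

def vv (a : Fin 4 × Fin 4) : Fin 3 → ℂ := ![I ^ a.1.1, I ^ a.2.1, 1]
theorem vv0 (a : Fin 4 × Fin 4) : vv a ≠ 0 := fun h => by simpa [vv] using congrFun h 2
noncomputable def pt (a : Fin 4 × Fin 4) : Projectivization ℂ (Fin 3 → ℂ) := .mk ℂ (vv a) (vv0 a)

theorem pt_ev {f : R} {k : ℕ} (h : f.IsHomogeneous k) (a : Fin 4 × Fin 4) :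
    eval (pt a).rep f = 0 ↔ eval (vv a) f = 0 := by
  obtain ⟨c, hc⟩ := Projectivization.exists_smul_eq_mk_rep ℂ (vv a) (vv0 a)
  rw [pt, ← hc, Units.smul_def, ev_smul h, mul_eq_zero_iff_left (pow_ne_zero _ c.ne_zero)]

theorem pt_inj : Function.Injective pt := fun a b h => by
  obtain ⟨c, hc⟩ := (Projectivization.mk_eq_mk_iff' ℂ _ _ _ _).mp h
  have c1 : c = 1 := by simpa [vv] using congrFun hc 2
  rw [c1, one_smul] at hc
  exact Prod.ext (Fin.ext (isPrimitiveRoot_I.pow_inj a.1.2 b.1.2 (congrFun hc 0).symm))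
    (Fin.ext (isPrimitiveRoot_I.pow_inj a.2.2 b.2.2 (congrFun hc 1).symm))

theorem cb {f : R} (h : f.IsHomogeneous 5) : ∑ a, I ^ a.1.1 * I ^ a.2.1 * eval (vv a) f = 0 := by
  simp only [eval_eq', Finset.mul_sum]
  rw [Finset.sum_comm]
  refine Finset.sum_eq_zero fun s hs => ?_
  have z : ∀ n ≤ 2, ∑ a : Fin 4, I ^ a.1 * (I ^ a.1) ^ n = 0 := fun n hn => by
    interval_cases n <;> simp [Fin.sum_univ_four, pow_succ]
  have e : ∑ a : Fin 4 × Fin 4, I ^ a.1.1 * I ^ a.2.1 * (coeff s f * ∏ i, vv a i ^ s i) =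
      coeff s f * ((∑ a : Fin 4, I ^ a.1 * (I ^ a.1) ^ s 0) * ∑ a : Fin 4, I ^ a.1 * (I ^ a.1) ^ s 1) := by
    rw [Finset.sum_mul_sum, ← Fintype.sum_prod_type', Finset.mul_sum]
    refine Finset.sum_congr rfl fun a _ => ?_
    simp [vv, Fin.prod_univ_three]
    ring
  have := deg3 h hs
  rw [e]
  rcases (by omega : s 0 ≤ 2 ∨ s 1 ≤ 2) with h | h <;> simp only [z _ h, zero_mul, mul_zero]

theorem four {f : R} {k : ℕ} (h : f.IsHomogeneous k) (f0 : f ≠ 0) (hv : ∀ a, eval (vv a) f = 0) : 4 ≤ k := by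
  classical
  by_contra hk
  refine f0 (eq_zero_of_eval_zero_at_prod_finset f (fun _ => Finset.univ.image fun a : Fin 4 => I ^ a.1)
    (fun i => ?_) fun x hx => ?_)
  · rw [Finset.card_image_of_injective _ fun a b h => Fin.ext (isPrimitiveRoot_I.pow_inj a.2 b.2 h)]
    have := (degreeOf_le_totalDegree f i).trans h.totalDegree_le
    simp; omega
  · simp only [Finset.mem_image, Finset.mem_univ, true_and] at hx
    choose c hc using hx
    have z : ∀ a b : Fin 4, I ^ a.1 = I ^ b.1 * I ^ (a - b).1 := fun a b => by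
      fin_cases a <;> fin_cases b <;> simp only [Fin.reduceFinMk, Fin.reduceSub] <;> simp [pow_succ]
    have : x = I ^ (c 2).1 • vv (c 0 - c 2, c 1 - c 2) := by
      ext i
      fin_cases i <;> simp [vv, ← hc, ← z]
    rw [this, ev_smul h, hv, mul_zero]

end Pool.Agent.H.MP_23142e_ag
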